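import Mathlib
import Pool.Agent.H.MP_c3017e_co.A

namespace Pool.Agent.Results.MP_c3017e_co.Full

open Finset Filter Topology Pool.Agent.H.MP_c3017e_co

/-- `p w m`: the number of distinct factors (blocks of consecutive letters) of length `m` of `w`. -/
noncomputable def p {k : ℕ} (w : List (Fin k)) (m : ℕ) : ℕ :=
  Set.ncard {u : List (Fin k) | u <:+: w ∧ u.length = m}

/-- The subword complexity sequence `(p w 1, …, p w n)` of a word `w` of length `n`. -/
noncomputable def cseq {k : ℕ} (w : List (Fin k)) : List ℕ :=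
  (List.range w.length).map fun m => p w (m + 1)

/-- `a k n`: the number of distinct subword complexity sequences of words of length `n`
over a `k`-letter alphabet. -/
noncomputable def a (k n : ℕ) : ℕ :=
  Set.ncard {s : List ℕ | ∃ w : List (Fin k), w.length = n ∧ cseq w = s}

def ff {k : ℕ} (w : List (Fin k)) (x : ℕ) : ℕ :=
  match w[x]? with
  | none => 0
  | some c => c.val + 1

lemma ff_zero {k : ℕ} (w : List (Fin k)) (x : ℕ) : ff w x = 0 ↔ w.length ≤ x := by
  unfold ff
  by_cases h : x < w.length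
  · rw [List.getElem?_eq_getElem h]; simp; omega
  · rw [List.getElem?_eq_none (by omega)]; simp; omega

lemma ff_eq {k : ℕ} (w : List (Fin k)) (x y : ℕ) : ff w x = ff w y ↔ w[x]? = w[y]? := by
  unfold ff
  rcases w[x]? with _ | c <;> rcases w[y]? with _ | d <;> simp [Fin.ext_iff]

lemma fac_eq {k : ℕ} (w : List (Fin k)) (i j m : ℕ) :
    (w.drop i).take m = (w.drop j).take m ↔ agree (ff w) i j m := by
  constructor
  · intro h t ht
    rw [ff_eq]
    have := congrArg (fun l => l[t]?) h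
    simpa [List.getElem?_take, ht] using this
  · intro h
    apply List.ext_getElem?
    intro t
    by_cases ht : t < m
    · simpa [List.getElem?_take, ht] using (ff_eq w _ _).1 (h t ht)
    · simp [List.getElem?_take, ht]

open Classical in
lemma p_eq {k : ℕ} (w : List (Fin k)) (m : ℕ) (hm : 1 ≤ m) :
    p w m = ((range w.length).filter fun i =>
      i + m ≤ w.length ∧ ¬ Rep w.length (ff w) i m).card := by
  have hf := ff_zero w
  unfold p
  have : {u : List (Fin k) | u <:+: w ∧ u.length = m} =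
      ((((range w.length).filter fun i =>
      i + m ≤ w.length ∧ ¬ Rep w.length (ff w) i m).image
        fun i => (w.drop i).take m : Finset _) : Set _) := by
    ext u
    simp only [Set.mem_setOf_eq, coe_image, coe_filter, mem_range, Set.mem_image]
    constructor
    · rintro ⟨⟨s, t, hst⟩, hu⟩
      have h0 : (w.drop s.length).take m = u := by
        rw [← hst, ← hu]; simp
      have hl : s.length + m ≤ w.length := by
        rw [← hst, ← hu]; simp
      obtain ⟨i, hi, hmin⟩ := exists_min_image ((range w.length).filter fun i =>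
        i + m ≤ w.length ∧ (w.drop i).take m = u) (rk w.length (ff w))
        ⟨s.length, by simp only [mem_filter, mem_range]; exact ⟨by omega, hl, h0⟩⟩
      simp only [mem_filter, mem_range] at hi hmin
      refine ⟨i, ⟨hi.1, hi.2.1, ?_⟩, hi.2.2⟩
      rintro ⟨j, hj, h1, h2⟩
      have hne : j ≠ i := fun e => slt_irrefl (f := ff w) i (by rw [e] at h1; exact h1)
      have b := agree_bound hf hj hne (agree_symm h2)
      have c := hmin j ⟨hj, b, by rw [← hi.2.2, fac_eq]; exact agree_symm h2⟩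
      have := rk_lt hj h1
      omega
    · rintro ⟨i, ⟨-, h1, -⟩, rfl⟩
      refine ⟨((List.take_prefix _ _).isInfix).trans (List.drop_suffix _ _).isInfix, ?_⟩
      simp; omega
  rw [this, Set.ncard_coe_finset, card_image_of_injOn]
  intro i hi j hj e
  simp only [coe_filter, mem_range, Set.mem_setOf_eq] at hi hj
  by_contra hc
  have e' := (fac_eq w i j m).1 e
  rcases slt_total hf hi.1 hc with h | h
  · exact hj.2.2 ⟨i, hi.1, h, agree_symm e'⟩
  · exact hi.2.2 ⟨j, hj.1, h, e'⟩

def Phi (n l : ℕ) (g : Fin l → Fin (n + 1)) (T : Finset (ℕ × ℕ)) : List ℕ :=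
  (List.range n).map fun m => if h : m + 1 < l then (g ⟨m + 1, h⟩ : ℕ) else
    ((range n).filter fun i => i + (m + 1) ≤ n ∧
      ¬ ∃ q ∈ T, q.1 ≤ i ∧ i + (m + 1) ≤ q.1 + q.2).card

lemma small_card (n t : ℕ) :
    (((range n ×ˢ range (n + 1)).powerset).filter fun T => T.card ≤ t).card
      ≤ (n + 1) ^ (2 * t) * (t + 1) := by
  have : (((range n ×ˢ range (n + 1)).powerset).filter fun T => T.card ≤ t) =
      (range (t + 1)).biUnion fun s => powersetCard s (range n ×ˢ range (n + 1)) := by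
    ext T
    simp only [mem_filter, mem_powerset, mem_biUnion, mem_range, mem_powersetCard]
    constructor
    · rintro ⟨h1, h2⟩
      exact ⟨T.card, by omega, h1, rfl⟩
    · rintro ⟨s, h1, h2, h3⟩
      exact ⟨h2, by omega⟩
  rw [this]
  refine card_biUnion_le.trans ?_
  calc _ ≤ ∑ _s ∈ range (t + 1), (n + 1) ^ (2 * t) := sum_le_sum fun s hs => ?_
    _ = _ := by simp [mul_comm]
  rw [card_powersetCard, card_product, card_range, card_range]
  refine (Nat.choose_le_pow _ _).trans ?_
  have hs' := mem_range.1 hs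
  calc (n * (n + 1)) ^ s ≤ ((n + 1) ^ 2) ^ s := Nat.pow_le_pow_left (by nlinarith) _
    _ = (n + 1) ^ (2 * s) := by rw [pow_mul]
    _ ≤ _ := Nat.pow_le_pow_right (by omega) (by omega)

lemma a_le (k n l t : ℕ) (hl : 1 ≤ l) (ht : 2 * (n * Nat.log 2 n) ≤ t * l) :
    a k n ≤ (n + 1) ^ l * ((n + 1) ^ (2 * t) * (t + 1)) := by
  classical
  unfold a
  set S := (((range n ×ˢ range (n + 1)).powerset).filter fun T => T.card ≤ t)
  have hsub : {s : List ℕ | ∃ w : List (Fin k), w.length = n ∧ cseq w = s} ⊆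
      ((((univ : Finset (Fin l → Fin (n + 1))) ×ˢ S).image
        fun z => Phi n l z.1 z.2 : Finset _) : Set _) := by
    rintro s ⟨w, hw, rfl⟩
    subst hw
    have hf := ff_zero w
    simp only [coe_image, Set.mem_image, mem_coe, mem_product, mem_univ, true_and]
    refine ⟨(fun m => ⟨min (p w m) w.length, by omega⟩, TT w.length (ff w) l), ?_, ?_⟩
    · simp only [S, mem_filter, mem_powerset]
      refine ⟨filter_subset _ _, ?_⟩
      have := TT_card hf l
      exact Nat.le_of_mul_le_mul_right (this.trans ht) hl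
    · unfold Phi cseq
      apply List.map_congr_left
      intro m hm
      have e := p_eq w (m + 1) (by omega)
      split_ifs with h
      · simp only
        apply min_eq_left
        rw [e]
        exact (card_filter_le _ _).trans (by simp)
      · rw [e]
        congr 1
        apply filter_congr
        intro i hi
        rw [rep_iff hf hl i (mem_range.1 hi) (m + 1) (by omega)]
  refine (Set.ncard_le_ncard hsub (Finset.finite_toSet _)).trans ?_
  rw [Set.ncard_coe_finset]
  refine card_image_le.trans ?_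
  rw [card_product]
  simp only [card_univ, Fintype.card_pi, Fintype.card_fin, prod_const]
  exact Nat.mul_le_mul_left _ (small_card n t)

lemma a_le_two_pow (k n : ℕ) :
    a k n ≤ 2 ^ (7 * (Nat.sqrt n + 1) * (Nat.log 2 n + 1) ^ 2) := by
  set s := Nat.sqrt n + 1 with hs
  set L := Nat.log 2 n with hL
  have h1 : n < s * s := Nat.lt_succ_sqrt n
  have h2 : n < 2 ^ (L + 1) := Nat.lt_pow_succ_log_self (by norm_num) n
  have h3 := a_le k n s (2 * s * L) (by omega) (by rw [← hL]; nlinarith)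
  have h4 : 2 * s * L + 1 ≤ 2 ^ (2 * s * L) := Nat.lt_two_pow_self
  calc a k n ≤ _ := h3
    _ ≤ (2 ^ (L + 1)) ^ s * ((2 ^ (L + 1)) ^ (2 * (2 * s * L)) * 2 ^ (2 * s * L)) := by
        gcongr <;> omega
    _ = 2 ^ ((L + 1) * s + ((L + 1) * (2 * (2 * s * L)) + 2 * s * L)) := by
        rw [← pow_mul, ← pow_mul, ← pow_add, ← pow_add]
    _ ≤ _ := Nat.pow_le_pow_right (by norm_num) (by nlinarith [Nat.zero_le (s * L), Nat.zero_le (s * L * L)])

lemma expo_small (ε : ℝ) (hε : 0 < ε) :
    ∀ᶠ n : ℕ in atTop, ((7 * (Nat.sqrt n + 1) * (Nat.log 2 n + 1) ^ 2 : ℕ) : ℝ) ≤ ε * n := by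
  have h := (Real.isLittleO_pow_log_id_atTop (n := 4)).comp_tendsto tendsto_natCast_atTop_atTop
  have h' := h.def (c := ε ^ 2 / (196 * 81)) (by positivity)
  filter_upwards [h', eventually_ge_atTop 3] with n hn h3
  simp only [Function.comp, id, Real.norm_eq_abs] at hn
  have hn0 : (3 : ℝ) ≤ n := by exact_mod_cast h3
  have hlog1 : 1 ≤ Real.log n := by
    rw [Real.le_log_iff_exp_le (by linarith)]
    have := Real.exp_one_lt_d9
    linarith
  rw [abs_of_nonneg (by positivity), abs_of_nonneg (by positivity)] at hn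
  have hL : (Nat.log 2 n : ℝ) ≤ 2 * Real.log n := by
    have h1 : 2 ^ Nat.log 2 n ≤ n := Nat.pow_log_le_self 2 (by omega)
    have h2 : ((2 : ℝ)) ^ Nat.log 2 n ≤ n := by exact_mod_cast h1
    have h4 := Real.log_le_log (by positivity) h2
    rw [Real.log_pow] at h4
    have := Real.log_two_gt_d9
    have h5 : (0 : ℝ) ≤ Nat.log 2 n := by positivity
    nlinarith
  have hs1 : 1 ≤ Nat.sqrt n := by rw [Nat.le_sqrt]; omega
  have hs2 : Nat.sqrt n * Nat.sqrt n ≤ n := Nat.sqrt_le n
  have hs1' : (1 : ℝ) ≤ Nat.sqrt n := by exact_mod_cast hs1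
  have hs2' : (Nat.sqrt n : ℝ) * Nat.sqrt n ≤ n := by exact_mod_cast hs2
  push_cast
  have e1 : ((Nat.sqrt n : ℝ) + 1) ^ 2 ≤ 4 * n := by nlinarith
  have e2 : ((Nat.log 2 n : ℝ) + 1) ^ 4 ≤ (3 * Real.log n) ^ 4 := by
    gcongr; linarith
  have e3 : 196 * 81 * Real.log n ^ 4 ≤ ε ^ 2 * n := by
    have : ε ^ 2 / (196 * 81) * n = ε ^ 2 * n / (196 * 81) := by ring
    rw [this, le_div_iff₀ (by norm_num)] at hn
    linarith
  rw [← sq_le_sq₀ (by positivity) (by positivity)]
  calc (7 * ((Nat.sqrt n : ℝ) + 1) * ((Nat.log 2 n : ℝ) + 1) ^ 2) ^ 2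
      = 49 * ((Nat.sqrt n : ℝ) + 1) ^ 2 * ((Nat.log 2 n : ℝ) + 1) ^ 4 := by ring
    _ ≤ 49 * (4 * n) * (3 * Real.log n) ^ 4 := by gcongr
    _ = (196 * 81 * Real.log n ^ 4) * n := by ring
    _ ≤ (ε ^ 2 * n) * n := by gcongr
    _ = _ := by ring

theorem subexp (k : ℕ) (c : ℝ) (hc : 1 < c) :
    Tendsto (fun n : ℕ => (a k n : ℝ) / c ^ n) atTop (𝓝 0) := by
  have hl : 0 < Real.log c := Real.log_pos hc
  have hl2 : 0 < Real.log 2 := Real.log_pos (by norm_num)
  have hr : Real.exp (-(Real.log c / 2)) < 1 := by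
    rw [Real.exp_lt_one_iff]; linarith
  have h0 := tendsto_pow_atTop_nhds_zero_of_lt_one (Real.exp_pos _).le hr
  refine squeeze_zero' (Eventually.of_forall fun n => by positivity) ?_ h0
  filter_upwards [expo_small (Real.log c / 2 / Real.log 2) (by positivity)] with n hn
  have h1 : (a k n : ℝ) ≤ 2 ^ (7 * (Nat.sqrt n + 1) * (Nat.log 2 n + 1) ^ 2) := by
    exact_mod_cast a_le_two_pow k n
  generalize 7 * (Nat.sqrt n + 1) * (Nat.log 2 n + 1) ^ 2 = E at hn h1
  rw [div_le_iff₀ (by positivity)]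
  refine h1.trans ?_
  have e1 : (2 : ℝ) ^ E = Real.exp (E * Real.log 2) := by
    rw [Real.exp_nat_mul, Real.exp_log (by norm_num)]
  have e2 : c ^ n = Real.exp (n * Real.log c) := by
    rw [Real.exp_nat_mul, Real.exp_log (by linarith)]
  rw [e1, e2, ← Real.exp_nat_mul, ← Real.exp_add, Real.exp_le_exp]
  have : (E : ℝ) * Real.log 2 ≤ Real.log c / 2 / Real.log 2 * n * Real.log 2 := by gcongr
  have e3 : Real.log c / 2 / Real.log 2 * n * Real.log 2 = Real.log c / 2 * n := by
    field_simp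
  nlinarith

theorem ratio (k : ℕ) :
    Tendsto (fun n : ℕ => (a k n : ℝ) / (Real.logb 2 k * (2 : ℝ) ^ ((n : ℝ) / 2))) atTop (𝓝 0) := by
  have hc : (1 : ℝ) < (2 : ℝ) ^ ((1 : ℝ) / 2) := Real.one_lt_rpow (by norm_num) (by norm_num)
  have h := (subexp k _ hc).div_const (Real.logb 2 k)
  rw [zero_div] at h
  refine h.congr fun n => ?_
  rw [← Real.rpow_natCast, ← Real.rpow_mul (by norm_num), div_div, mul_comm (Real.logb 2 k)]
  congr 3
  ring

/-- The number of subword complexity sequences is at most `2^(7 (√n+1) (log₂ n+1)^2)` over every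
alphabet, so it is subexponential; for every `k ≥ 2` the ratio `a k n / (log₂ k * 2^(n/2))` tends
to `0`, and it does not tend to `1`. -/
theorem result :
    (∀ k n : ℕ, a k n ≤ 2 ^ (7 * (Nat.sqrt n + 1) * (Nat.log 2 n + 1) ^ 2)) ∧
    (∀ k : ℕ, ∀ c : ℝ, 1 < c → Tendsto (fun n : ℕ => (a k n : ℝ) / c ^ n) atTop (𝓝 0)) ∧
    (∀ k : ℕ, 2 ≤ k →
      Tendsto (fun n : ℕ => (a k n : ℝ) / (Real.logb 2 k * (2 : ℝ) ^ ((n : ℝ) / 2))) atTop (𝓝 0) ∧
      ¬ Tendsto (fun n : ℕ => (a k n : ℝ) / (Real.logb 2 k * (2 : ℝ) ^ ((n : ℝ) / 2)))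
        atTop (𝓝 1)) :=
  ⟨a_le_two_pow, subexp, fun k _ => ⟨ratio k, fun h => by
    have := tendsto_nhds_unique (ratio k) h
    norm_num at this⟩⟩

end Pool.Agent.Results.MP_c3017e_co.Full
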